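import Pool.Agent.U273.FS.TwFin

/-!
# The Tate conjecture for all but few of the twists of a surface over a finite field

Let `X` be a smooth projective surface over the field of `q` elements and `σ` an automorphism of `X` over this
field of order `p ^ (s + 1)`, `p ∤ q` prime, and suppose that `τ = σ ^ (p ^ s)`, of order `p`, acts trivially on
`H^1` and `H^3` (for example, let `X` be regular). For `j` modulo `p ^ (s + 1)` let `X_j` be the twist of `X` by
`σ ^ j`: the surface with `X_j = X` over the algebraic closure, with Frobenius `F σ ^ j`. Let `U` be the set of
the points of `X` not fixed by `τ`, and `P₁ / P₂` the zeta function of `U / σ`. Put `H = P₂ / P₁` **modulo `p`**; it is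
a polynomial.

**Theorem.**
1. Let `b` be the multiplicity of the root `1 / q` of `H` in the field of `p` elements. Then for **all but at most
   `b` of the `p ^ (s + 1)` twists** `X_j` all the generalised Tate classes are invariant under `τ`, and the Tate
   conjecture Q1 (both statements) for `X_j` is equivalent to Q1 for the quotient `X_j / τ`.
2. Let `b` be a bound for the cyclotomic degree of `H`: every product of cyclotomic polynomials `Φ_m(q T)`, `m`
   prime to `p`, which divides `H` modulo `p` has degree at most `b`. Then for **all but at most `b` of the twists** the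
   same is true **for all the extensions of the base field of degree prime to `p` at the same time**.
3. For the `p`-fold planes `w ^ p = f(x, y, z)`, `q = 1` modulo `p`, with a smooth branch curve `B`, with `P_B` the
   characteristic polynomial of Frobenius on `H^1(B)`, one has `H = (1 - T) P_B` modulo `p`. So `b = 1` in 1. **if
   `p` does not divide the number `P_B(1)` of rational points of the Jacobian of `B`**, and `b = 1` in 2. if no `Φ_m`,
   `p ∤ m`, divides `P_B` modulo `p`.

So for `p ∤ #Jac(B)(𝔽_q)` the Tate conjecture is true, the Brauer group is finite and the Picard number is one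
**for all but at most one of the `p` surfaces `w ^ p = c ^ j f(x, y, z)`**, `c` a generator of `𝔽_q^×`, of any degree
and any geometric genus; in the second case this is so over all the extensions of degree prime to `p`.

The proof. Modulo a place above `p` the polynomial `det(1 - F T | V_ω)` is `H` for the eigenspace `V_ω` of `σ` in
`H²` for each primitive root of unity `ω` of order `p ^ (s + 1)` (`U273/FS/AutMain`). A generalised Tate class of
`X_j` over the extension of degree `n` in `V_ω` gives an eigenvalue `λ` of `F` on `V_ω` with `(λ ω ^ j) ^ n = q ^ n`.
For different `j` these `λ` are different if `p ∤ n`, they are all congruent to `q` times a root of unity of order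
prime to `p`, and there are at most `b` of them by the reduction of the characteristic polynomial (for 2. by the
theorem on complete sets of conjugates modulo `p`, `U273/FS/CycB`). Finally **the set of the exceptional `j` does not
depend on `ω`**: the traces of `F ^ n` on all the `V_ω` are the same sums in `ℤ[ω]`, so the homomorphisms of
the algebraic numbers map the eigenvalues on `V_ω` to those on `V_ω'` (`U273/FS/TwSum`).

In the Lean statement `X` is an actual proper scheme with its geometric points; its cohomology enters
through the trace formula for the compositions of powers of Frobenius and `σ` (`IsCohomology`), and the Néron-Severi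
group as a subgroup `N` of `H²`.

Earlier work: for the surfaces `y ^ ℓ = D(t) u(x) (f(x) - t)` a bound for the sum of the orders over the `ℓ` constant
twists is in the starting library (MP_7f58ab_ag, `CharacterTwists`). Here all surfaces with automorphisms of prime
power order are treated, with the zeta function of `U / σ` modulo `p` in the place of ramification data, and all
extensions of degree prime to `p` together.
-/

set_option autoImplicit false

open CategoryTheory AlgebraicGeometry Polynomial

namespace Pool.Agent.Results.MP_8ac872_ag.AllButFewTwists

open Pool.Agent.U273.FS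

/-- **All but few of the twists.** -/
theorem result {κ : Type} [Field κ] [Fintype κ] {E : Type} [Field E] [CharZero E] [IsAlgClosed E]
    {p s : ℕ} (hp : p.Prime) (hq : ¬ p ∣ Fintype.card κ) {X : Scheme.{0}}
    (π : X ⟶ Spec (CommRingCat.of κ)) [IsProper π] (σ : X ⟶ X) (hσ : σ ≫ π = π)
    (hord : power σ (p ^ (s + 1)) = 𝟙 X) (D : CohomologyGroups E)
    (hD : D.IsCohomology π σ hσ (p ^ (s + 1))) (htop : D.top = 4)
    (htriv : TrivialOutsideTwo D (p ^ s)) (P₁ P₂ : ℤ[X])
    (hP : HasQuotientZeta E π σ hσ (p ^ s) (p ^ (s + 1)) P₁ P₂) (H : (ZMod p)[X])
    (hH : IsQuotientMod p H P₁ P₂) (N : AddSubgroup (D.H 2)) :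
    (∀ b : ℕ, HasMultiplicityLE p (Fintype.card κ) H b →
      HoldsForAllBut b (p ^ (s + 1)) fun j => TwistReduces D (Fintype.card κ) (p ^ s) N j 1) ∧
    (∀ b : ℕ, CyclotomicDegreeLE p (Fintype.card κ) H b →
      HoldsForAllBut b (p ^ (s + 1)) fun j => ∀ n : ℕ, 0 < n → ¬ p ∣ n →
        TwistReduces D (Fintype.card κ) (p ^ s) N j n) ∧
    (∀ P : ℤ[X], ((Fintype.card κ : ℕ) : ZMod p) = 1 →
      IsZetaOfPlaneComplement (Fintype.card κ) P₁ P₂ P →
        (¬ (p : ℤ) ∣ P.eval 1 → HasMultiplicityLE p (Fintype.card κ) H 1) ∧
        (NoCyclotomicFactor p P → CyclotomicDegreeLE p (Fintype.card κ) H 1)) := by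
  refine ⟨fun b hb => ?_, fun b hb => ?_, ?_⟩
  · exact twists_base hp π σ hσ hord D hD (by omega) htriv P₁ P₂ hP H hH N b hb
  · exact twists_all hp hq π σ hσ hord D hD (by omega) htriv P₁ P₂ hP H hH N b hb
  · rintro P hq1 ⟨rfl, rfl⟩
    exact ⟨fun hP => planes_mult hp hq1 P hP H hH, fun hP => planes_cyc hp hq1 P hP H hH⟩

end Pool.Agent.Results.MP_8ac872_ag.AllButFewTwists
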