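import Pool.Agent.U227.HlMain

/-!
# The Tate conjecture for divisors: all or half of the tensors are algebraic

Let `Y` be a variety of dimension `n ≥ 2`, `W` a Weil cohomology theory with algebraically closed
coefficient field `K` of characteristic zero (one may always extend the coefficients), `D` a divisor
with hard Lefschetz and such that `deg(z · w · D ^ (n - 2))` is a nondegenerate form on the divisors modulo
homological equivalence (Matsusaka, Hodge index theorem), and `f` an endomorphism which acts as a
Frobenius endomorphism relative to the field with `q` elements: `(f × f)^*` multiplies the classes of cycles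
of codimension `j` on `Y × Y` by `q ^ j`.

Let `V` be the generalized eigenspace of `f^*` on `H^2(Y)` for the eigenvalue `q`, `m` its dimension (the order
of the pole of the zeta function at `s = 1`) and `ρ` the dimension of the span of the divisor classes. The
Tate conjecture for divisors (in the strong form, with the multiplicity) is `ρ = m`. The `k`-th tensor power
of `V` is a subspace of `H^(2k)(Y^k)`, consisting of generalized Tate classes. Let `b_k` be the dimension of the
space of its elements which are combinations of classes of algebraic cycles on `Y^k`; `b_1 = ρ`.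

**Theorem.**
* For all `k ≥ 1`: `b_(k+1) ≤ ρ b_k + (m - ρ) (m^k - b_k)`; in other words the excess over one half satisfies
  `2 b_(k+1) - m^(k+1) ≤ (2ρ - m) (2 b_k - m^k)`.
* If `m ≤ 2ρ`, then `b_k ≤ (m^k + (2ρ - m)^k) / 2` for all `k ≥ 1`.
* The Tate conjecture `ρ = m` is true if and only if `b_k = m^k` for all `k`, and if and only if for some
  `k ≥ 1` more than `(m^k + (m - 2)^k) / 2` of the `m^k` dimensions of `V^(⊗ k)` are algebraic, and more than
  `(m^(k+1) + (m - 2)^(k+1)) / 2` of the `m^(k+1)` dimensions of `V^(⊗ (k + 1))`.

So if the Tate conjecture for divisors fails for `Y`, then, up to an exponentially small proportion, at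
most half of the Tate classes in `V^(⊗ k)` are algebraic: for all `k` if `m ≤ 2ρ`, and for one of any two
consecutive `k` in general. The bound in the second part is the number of the invariants of the sign change of
an `(m - ρ)`-dimensional summand of `V`, so it is the best possible bound of this kind.

Proof. Contractions of algebraic classes with algebraic classes, on the first `k` factors and on the last factor of
`Y^(k+1)`, are algebraic. Let `B_k` be the space of the algebraic elements of `V^(⊗ k)` and `N` the span of the
divisor classes. Map `x` in `B_(k+1)` to its contractions with a basis of `N` on the last factor, which are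
in `B_k`, and to the images in `V / N` of its contractions with a basis of a complement of `B_k` in
`V^(⊗ k)` on the first factors. This map is injective: if all these are zero, all contractions `c_u(x)` on the
first factors are in `N`, and orthogonal to `N`. The rest is the recursion.
In `Y ^ k` the index is shifted in the Lean text: `b k` there is `b_(k+1)` here.
-/

set_option autoImplicit false

universe u v

namespace Pool.Agent.Results.MP_8ac872_ag.AllOrHalf

open CategoryTheory Pool.Agent.H914 Pool.Agent.H914.VarClass Pool.Agent.H914.VarClass.Obj
  Pool.Agent.H914.WeilCohomology Pool.Agent.U227.Fr Pool.Agent.U227.Grp Pool.Agent.U227.Hl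

/-- **All or half.** -/
theorem result {k : Type u} [Field k] {𝒱 : VarClass k} {ops : CycleOps 𝒱}
    (W : WeilCohomology.{u, v} ops) [IsAlgClosed W.K] (Y : 𝒱.Obj) (D : Y.Cycles)
    (hD : Y.IsCyc 1 D) (hHL : HardLefschetz W Y D) (h1 : (1 : W.H Y) ≠ 0) (h2 : 2 ≤ Y.dim)
    (f : Y ⟶ Y) (q : ℕ) (hq : 0 < q) (hF : IsFrobenius W Y f q) (hN : DivisorForm W Y D)
    (m ρ : ℕ) (b : ℕ → ℕ) (hm : m = tateDim W Y f q) (hρ : ρ = divDim W Y)
    (hb : ∀ k, b k = tensorDim W Y f q k) :
    (∀ k, b (k + 1) ≤ ρ * b k + (m ^ (k + 1) - b k) * (m - ρ)) ∧
    (m ≤ 2 * ρ → ∀ k, 2 * b k ≤ m ^ (k + 1) + (2 * ρ - m) ^ (k + 1)) ∧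
    List.TFAE [ρ = m, ∀ k, b k = m ^ (k + 1),
      ∃ k, m ^ (k + 1) + (m - 2) ^ (k + 1) < 2 * b k ∧
        m ^ (k + 2) + (m - 2) ^ (k + 2) < 2 * b (k + 1)] :=
  main hD hHL h1 h2 hF hq hN hm hρ hb

end Pool.Agent.Results.MP_8ac872_ag.AllOrHalf
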