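import Pool.Agent.U227.BrMain

/-!
# Group actions and the Tate conjecture over finite fields

Let `X` be a smooth projective variety over the algebraic closure of a finite field, let `H^*` be a Weil
cohomology theory with coefficient field `K`, `f` a Frobenius endomorphism of `X` relative to a field with
`q` elements, and let a finite group `G` act on `X` by automorphisms which commute with `f`. For a subgroup
`C` of `G` the cohomology of `X/C` is `H^*(X)^C`. Let `δ(C)` be the defect of the Tate conjecture for `X/C`
and the cycles of codimension `j` (divisors: `j = 1`), i.e. the multiplicity of the eigenvalue `q ^ j` of
`f^*` on `H^(2j)(X)^C` minus the dimension of the span of the classes of cycles which are fixed by `C`. We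
show:

* the Tate conjecture (strong form: the generalized eigenspace for `q ^ j` is spanned by classes of cycles)
  holds for `X/C` if and only if `δ(C) = 0`;
* `δ ≥ 0` satisfies all Brauer relations: `∑ c_i δ(C_i) = 0` if `∑ c_i Ind_(C_i)^G 1 = 0`; if the
  subgroup `M` is partitioned into `m` subgroups `C_i`, then `∑ |C_i| δ(C_i) = |M| δ(M) + (m - 1) δ(1)`. So
  `δ(1) = ∑ δ(C_i) - p δ(G)` for `G = (ℤ/p)²` and its `p + 1` subgroups of order `p`;
* the conjecture holds for `X` if and only if every irreducible rational representation of `G` which occurs
  in the generalized eigenspace modulo classes of cycles has a nonzero vector fixed by a subgroup `C` such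
  that the conjecture holds for `X/C`; more generally it holds for `X/H` if it holds for all `X/C_i` and every
  such representation with a nonzero vector fixed by `H` has a nonzero vector fixed by some `C_i`;
* the laws for involutions, nonabelian simple subgroups, partitions and commutative groups;
* if the conjecture is false for `X`, but true for all quotients by subgroups of prime order, then an
  irreducible representation in which the elements different from one fix only `0` occurs, the
  commutative subgroups and the subgroups of order `r s` (`r`, `s` prime) are cyclic and `G` has at most one
  involution.

The proof: the class functions `g ↦ tr(g)` on the generalized eigenspace and on the span of the classes of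
cycles compute the two dimensions; the elements of the rational group ring which map the generalized
eigenspace to the span of the classes of cycles are a two-sided ideal, and it contains `∑_(c ∈ C) c` if and
only if the conjecture is true for `X/C`.

The representation theoretic criteria (involutions, simple groups, partitions, groups of order `r s`)
are from the library (`X252`), where they are applied to the Künneth components.
-/

open CategoryTheory Pool.Agent.H914 Pool.Agent.X252.GA Pool.Agent.X252.SCT Pool.Agent.U227.Grp
  Pool.Agent.U227.Br

universe u v

namespace Pool.Agent.Results.MP_8ac872_ag.BrauerRelations

/-- **Group actions and the Tate conjecture: the defects of the quotients satisfy the Brauer relations.** -/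
theorem result {k : Type u} [Field k] {𝒱 : VarClass k} {ops : CycleOps 𝒱}
    (W : WeilCohomology.{u, v} ops) (X : 𝒱.Obj) (f : X ⟶ X) (q j : ℕ)
    (hF : ScalesClasses W X f q j) {G : Type} [Group G] [Finite G] (a : G →* Aut X)
    (hc : ∀ g : G, (a g).hom ≫ f = f ≫ (a g).hom) :
    (∀ H : Subgroup G, TateOn W a f q j H ↔ defect W a f q j H = 0) ∧
    SatisfiesBrauer (defect W a f q j) ∧
    (Tate W X f q j ↔ CoveredTate W a f q j) ∧
    (∀ (H : Subgroup G) (ι : Type) (C : ι → Subgroup G), DominatesTate W a f q j H C →
      (∀ i, TateOn W a f q j (C i)) → TateOn W a f q j H) ∧
    QuotientLaws (Tate W X f q j) (TateOn W a f q j) ∧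
    (¬ Tate W X f q j → AtPrimes (TateOn W a f q j) →
      FreeOccursTate W a f q j ∧ CyclicSubgroups G) :=
  main hc hF

end Pool.Agent.Results.MP_8ac872_ag.BrauerRelations
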